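import Pool.Agent.NRU.Targets

/-!
# NRU, block INN: the first level with `A = ∅`
-/

set_option autoImplicit false

open Finset Classical

namespace Pool.Agent.NRU

open Pool.Agent Pool.Agent.Lib.Recon Pool.Agent.RNB Pool.Agent.NRC Pool.Agent.NRP
  Pool.Agent.NRR

namespace INN_

variable {V : Type} [Fintype V]

theorem mem_cl {G : SimpleGraph V} {z y x : V} :
    x ∈ cl G (insert z ∅) y ↔ x ≠ z ∧ (G.Adj z y ↔ G.Adj z x) := by
  unfold cl
  simp only [mem_filter, mem_univ, true_and, mem_insert, notMem_empty, or_false]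
  constructor
  · rintro ⟨h1, h2⟩
    exact ⟨h1, h2 z rfl⟩
  · rintro ⟨h1, h2⟩
    refine ⟨h1, ?_⟩
    intro b hb
    rw [hb]
    exact h2

theorem cl_empty (G : SimpleGraph V) (y : V) : cl G ∅ y = univ := by
  ext x
  unfold cl
  simp

theorem cl_adj {G : SimpleGraph V} {z y : V} (h : G.Adj z y) :
    cl G (insert z ∅) y = nb G z := by
  ext x
  rw [mem_cl, mem_nb]
  constructor
  · rintro ⟨_, h2⟩
    exact h2.1 h
  · intro hx
    exact ⟨hx.ne', fun _ => hx, fun _ => h⟩

theorem card_nadj {G : SimpleGraph V} {z y : V} (h : ¬ G.Adj z y) :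
    Fintype.card V ≤ (cl G (insert z ∅) y).card + 1 + (nb G z).card := by
  have hsub : (univ : Finset V) ⊆ (cl G (insert z ∅) y ∪ {z}) ∪ nb G z := by
    intro x _
    rw [mem_union, mem_union, mem_cl, mem_singleton, mem_nb]
    by_cases hx : x = z
    · exact Or.inl (Or.inr hx)
    · by_cases hz : G.Adj z x
      · exact Or.inr hz
      · exact Or.inl (Or.inl ⟨hx, fun h' => absurd h' h, fun h' => absurd h' hz⟩)
  have h1 := card_le_card hsub
  have h2 := card_union_le (cl G (insert z ∅) y ∪ {z}) (nb G z)
  have h3 := card_union_le (cl G (insert z ∅) y) ({z} : Finset V)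
  rw [card_singleton] at h3
  rw [card_univ] at h1
  omega

end INN_

open INN_ in
theorem p_INN : T_INN := by
  intro V _ G D hD h1 hn
  have hE : EE G D ∅ = ∅ := by
    rw [eq_empty_iff_forall_notMem]
    intro z hz
    unfold EE at hz
    rw [mem_filter] at hz
    obtain ⟨_, _, y, y', _, _, _, _, hne, hy, hy'⟩ := hz
    by_cases ha : G.Adj z y
    · rw [cl_adj ha] at hy
      exact absurd (hD z) (not_le.2 hy)
    · have hb : G.Adj z y' := by
        by_contra hb
        exact hne ⟨fun h => absurd h ha, fun h => absurd h hb⟩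
      rw [cl_adj hb] at hy'
      exact absurd (hD z) (not_le.2 hy')
  refine ⟨hE, ?_, ?_, ?_⟩
  · intro y
    ext z
    unfold IN
    rw [mem_filter, mem_nb]
    constructor
    · rintro ⟨_, _, hzy, hc⟩
      by_contra hna
      have hna' : ¬ G.Adj z y := fun h => hna h.symm
      have h2 := card_nadj hna'
      have h3 := hD z
      omega
    · intro ha
      refine ⟨mem_univ _, notMem_empty _, ha.ne', ?_⟩
      rw [cl_adj ha.symm]
      have h3 := hD z
      omega
  · ext y
    unfold LA
    rw [mem_filter, hE]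
    simp only [mem_univ, true_and, union_empty, notMem_empty, not_false_eq_true, iff_true]
    rw [cl_empty, card_univ]
    exact hn
  · intro y
    refine le_trans (card_le_card ?_) (hD y)
    intro z hz
    unfold ZZ SS at hz
    rw [mem_filter, mem_filter] at hz
    obtain ⟨_, _, _, _, hyz, hc⟩ := hz
    rw [cl_empty, card_univ] at hc
    rw [mem_nb]
    by_contra hna
    have hna' : ¬ G.Adj z y := fun h => hna h.symm
    have h2 := card_nadj hna'
    have h3 := hD z
    omega

end Pool.Agent.NRU
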