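import Pool.Agent.NRU.Targets

/-!
# NRU-L1C: the first level, `A = T0 = ∅`

Project NRU (owner helper39), block by helper52.
-/

set_option autoImplicit false

open Finset Classical

namespace Pool.Agent.NRU

open Pool.Agent Pool.Agent.Lib.Recon Pool.Agent.RNB Pool.Agent.NRC Pool.Agent.NRP
  Pool.Agent.NRR

namespace L1C_

theorem conn {V : Type} [Fintype V] {G : SimpleGraph V} (hG : G.Connected) {Q : Finset V}
    (hQ : ∀ y ∈ Q, nb G y ⊆ Q) {y0 : V} (h0 : y0 ∈ Q) : Q = univ := by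
  ext z
  simp only [mem_univ, iff_true]
  have h1 := hG.preconnected y0 z
  rw [SimpleGraph.reachable_iff_reflTransGen] at h1
  induction h1 with
  | refl => exact h0
  | tail _ hbc ih => exact hQ _ ih (mem_nb.2 hbc)

theorem num (n D m s x e k lq r K : ℝ) (hm : 0 < m) (hD : 0 < D) (hK : 0 ≤ K) (hr : 0 ≤ r)
    (hs : s ≤ 2) (hk0 : 0 ≤ k) (hx0 : 0 ≤ x) (hk : k * m ^ 2 ≤ n) (hx : x * m ^ 2 ≤ n)
    (hl : lq ≤ 2 * m) (he : 64 * D * e ≤ n) :
    r * s + 4 * lq * (k + x) + 6 * K * e ≤ 2 * r + 16 * n / m + 6 * K * (n / (64 * D)) := by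
  have h1 : r * s ≤ r * 2 := mul_le_mul_of_nonneg_left hs hr
  have h2 : e ≤ n / (64 * D) := by
    rw [le_div_iff₀ (by positivity)]
    linarith
  have h3 : 6 * K * e ≤ 6 * K * (n / (64 * D)) :=
    mul_le_mul_of_nonneg_left h2 (by positivity)
  have h4 : 4 * lq * (k + x) ≤ 16 * n / m := by
    rw [le_div_iff₀ hm]
    calc 4 * lq * (k + x) * m ≤ 4 * (2 * m) * (k + x) * m := by gcongr
      _ = 8 * (k * m ^ 2 + x * m ^ 2) := by ring
      _ ≤ 16 * n := by linarith
  linarith

end L1C_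

open L1C_ in
theorem p_L1C (h_INN : T_INN) (h_LVS : NRP.T_LVS) (h_XBD : NRP.T_XBD) : T_L1C := by
  intro V _ G D m hG hnb hD hDn hn3 hm hd hFar
  obtain ⟨hEE, hIN, hLA, hZZ⟩ := h_INN V G D hnb hD hDn
  have hm1 : 1 ≤ m := by omega
  have hqm : 64 * D < 2 ^ m := by
    rw [hm]
    exact Nat.lt_pow_succ_log_self (by norm_num) _
  have hLv : Lv G D (64 * D) D ∅ ∅ :=
    { sub := by rw [hEE, union_empty]
      g1 := hD
      h1 := hD
      q1 := by omega
      q2 := by omega
      ind := fun y _ => by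
        rw [hIN y]
        exact hnb y }
  have hmain := h_LVS V G D (64 * D) D (Fintype.card V - 1) (16 * m ^ 3)
    (Fintype.card V / m ^ 2) ∅ ∅ (fun _ => 0) 0 (1 + Real.logb 2 (Fintype.card V)) (by omega) hd
    hFar hLv (fun y hy => absurd rfl hy) (fun y => Or.inl rfl) (fun y _ => Or.inl rfl)
    (Co.base (by rw [LV1_.Ph_zero, add_zero]))
    (by
      intro Q _ hQM _
      have hQ : Q.Nonempty := by
        rw [← card_pos]
        omega
      obtain ⟨y, hy⟩ := hQ
      refine ⟨y, hy, ?_⟩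
      have h5 : kc G ∅ y ≤ Fintype.card V := by
        unfold kc
        exact card_le_univ _
      have := LV1_.logb_mono _ _ h5
      linarith)
  rcases hmain with ⟨Q, -, hQM, hQc, y0, hy0, -⟩ |
    ⟨T', ms', s, x, e, -, hNr, hMs, hqe, hx, hMk, hmk, hCz, hCo⟩
  · exfalso
    have h1 : Q = univ := conn hG (fun y hy => by
      have h2 := hQc y hy
      rwa [hIN y] at h2) hy0
    rw [h1, card_univ] at hQM
    omega
  · refine ⟨T', ms', ⟨hLv, fun y hy => ?_, empty_subset _, hCz⟩, hNr, hMk, hmk, ?_⟩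
    · exact absurd (hZZ y) (not_le.2 hy)
    · refine LV1_.co_mono hCo ?_
      have hs2 : s ≤ 2 := by
        by_contra hc
        push Not at hc
        have h1 : (Fintype.card V - 1) * 3 ≤ Fintype.card V :=
          (Nat.mul_le_mul_left _ hc).trans hMs
        omega
      have hxx : (x : ℝ) * (m : ℝ) ^ 2 ≤ (Fintype.card V : ℝ) := by
        have h7 := h_XBD (Fintype.card V) m (1 + 64 * D + D * (2 * D)) hm1 hd (by
          have h8 : D ≤ 2 ^ m := by omega
          have h9 : D * (2 * D) ≤ 2 ^ m * (2 * 2 ^ m) :=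
            Nat.mul_le_mul h8 (Nat.mul_le_mul_left 2 h8)
          have h10 : (2 : ℕ) ^ (2 * m + 2) = 4 * (2 ^ m * 2 ^ m) := by
            rw [pow_add, two_mul, pow_add]
            ring
          have h11 : 1 + 64 * D ≤ 2 ^ m * 2 ^ m := by
            calc 1 + 64 * D ≤ 2 ^ m := by omega
              _ = 2 ^ m * 1 := by ring
              _ ≤ _ := Nat.mul_le_mul_left _ Nat.one_le_two_pow
          rw [h10]
          have h12 : 2 ^ m * (2 * 2 ^ m) = 2 * (2 ^ m * 2 ^ m) := by ring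
          rw [h12] at h9
          omega)
        exact LV1_.xb (Fintype.card V) m _ (64 * D) D (16 * m ^ 3) x rfl rfl hx h7
      have hkk : ((Fintype.card V / m ^ 2 : ℕ) : ℝ) * (m : ℝ) ^ 2 ≤ (Fintype.card V : ℝ) := by
        have h6 : Fintype.card V / m ^ 2 * m ^ 2 ≤ Fintype.card V := Nat.div_mul_le_self _ _
        exact_mod_cast h6
      have hee : 64 * (D : ℝ) * (e : ℝ) ≤ (Fintype.card V : ℝ) := by exact_mod_cast hqe
      have hlq : 1 + Real.logb 2 ((64 * D : ℕ) : ℝ) ≤ 2 * (m : ℝ) := by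
        have h6 := LV1_.logb_le (64 * D) m hqm.le
        have h7 : (1 : ℝ) ≤ (m : ℝ) := by exact_mod_cast hm1
        linarith
      have hr : 0 ≤ 1 + Real.logb 2 (Fintype.card V : ℝ) := by
        have h6 : 0 ≤ Real.logb 2 (Fintype.card V : ℝ) :=
          Real.logb_nonneg (by norm_num) (by exact_mod_cast (by omega : 1 ≤ Fintype.card V))
        linarith
      have hfin := num (Fintype.card V) D m s x e ((Fintype.card V / m ^ 2 : ℕ) : ℝ)
        (1 + Real.logb 2 ((64 * D : ℕ) : ℝ)) (1 + Real.logb 2 (Fintype.card V : ℝ)) KH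
        (by exact_mod_cast hm1) (by exact_mod_cast hD) (Nat.cast_nonneg _) hr
        (by exact_mod_cast hs2) (Nat.cast_nonneg _) (Nat.cast_nonneg _) hkk hxx hlq hee
      linarith

end Pool.Agent.NRU
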