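import Pool.Agent.NRU.Targets
import Pool.Agent.NRP.P_STP

/-!
# NRU, target L2C: the second level
-/

set_option autoImplicit false

open Finset Classical

namespace Pool.Agent.NRU

open Pool.Agent Pool.Agent.Lib.Recon Pool.Agent.RNB Pool.Agent.NRC Pool.Agent.NRP
  Pool.Agent.NRR

namespace L2C_

variable {V : Type} [Fintype V]

theorem four_le_KK : 4 ≤ KK := by
  unfold KK
  calc 4 = 2 ^ 2 := by norm_num
    _ ≤ 2 ^ 10000 := Nat.pow_le_pow_right (by norm_num) (by norm_num)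

/-- the small closed components are few -/
theorem scp_card (h_NCP : NRR.T_NCP) (h_ELO : NRC.T_ELO) (G : SimpleGraph V) (g q K0 : ℕ)
    (A T0 : Finset V) (hK : 1 ≤ K0)
    (hsym : ∀ y ∈ PL G g q A T0, ∀ z ∈ PL G g q A T0, z ∈ IN G (2 * g) A y →
      y ∈ IN G (2 * g) A z)
    (hd : ∀ u v, u ≠ v → K0 ≤ (dset G u v).card) :
    q * (SCP (IN G (2 * g) A) (PL G g q A T0) ((K0 - 1) / 2)).card ≤ Fintype.card V := by
  obtain ⟨D', W, h1, h2⟩ := h_NCP V (IN G (2 * g) A) (PL G g q A T0) ((K0 - 1) / 2) hsym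
  rw [← h1]
  refine le_trans (Nat.mul_le_mul_left _ (Finset.card_le_card ?_)) (h_ELO V G g q K0 A hd)
  intro v hv
  obtain ⟨e1, e2, -⟩ := h2 v hv
  obtain ⟨e3, e4, e5, -⟩ := e2
  have e6 := e1 e5
  simp only [PL, Finset.mem_filter] at e6
  rw [Finset.mem_filter]
  refine ⟨e6.1, ?_⟩
  have e7 := (Finset.card_le_card (e3 v e5)).trans e4
  omega

theorem fin_aux (c a2 a1 b1 a3 b3 a4 a5 ph X m : ℝ) (c2 : a2 ≤ X / m) (c1 : a1 ≤ b1)
    (c3 : a3 ≤ b3) (c4 : a4 ≤ 8 * (X / m)) (c5 : a5 ≤ X / m) (h0 : 0 ≤ X / m) :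
    c + a2 + a1 + a3 + a4 + a5 + ph ≤ c + 18 * X / m + (b1 + b3) + ph := by
  have c6 : 18 * X / m = 18 * (X / m) := by ring
  rw [c6]
  linarith

end L2C_

open L2C_ STP_ in
/-- L2C -/
theorem p_L2C (h_LVC : T_LVC) (h_NCP : NRR.T_NCP) (h_SYS : NRP.T_SYS) (h_ELO : NRC.T_ELO)
    (h_LVT : NRP.T_LVT) (h_ECO : NRP.T_ECO) (h_CLO : NRP.T_CLO) (h_NUM : NRP.T_NUM)
    (h_XBD : NRP.T_XBD) : T_L2C := by
  intro V _ G D d K0 T1 ms c hCx hKd hdn hqq hK0 hnK hdist hNr hMk hms hCo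
  obtain ⟨-, n2, n3, n4, n5, n6, n7⟩ := h_NUM d hKd
  have hKK : 4 ≤ KK := four_le_KK
  have hK04 : 4 ≤ K0 := hKK.trans hK0
  have hd1 : 1 ≤ d := le_trans (by omega) (hKK.trans hKd)
  have hd2 : 1 ≤ d ^ 2 := Nat.one_le_pow _ _ hd1
  have hn1 : 1 ≤ Fintype.card V := hd1.trans hdn
  have hdistK : ∀ u v, u ≠ v → KK ≤ (dset G u v).card := fun u v h => hK0.trans (hdist u v h)
  have hCo3 := h_ECO V G d T1 _ hKd hNr hCo
  have hLv := h_LVT V G d T1 hKd hNr
  have hT20 : T1 ⊆ T1 ∪ EE G (d ^ 2) T1 := Finset.subset_union_left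
  have hMk0 : Mk (kc G) (T1 ∪ EE G (d ^ 2) T1) ms := mk_mono hT20 hMk
  have hnx : nx d ≤ Fintype.card V := by omega
  have hPLm : ∀ y ∈ PL G (d ^ 2) (d ^ 4) T1 (T1 ∪ EE G (d ^ 2) T1), ms y = 0 ∨ d ^ 4 < ms y := by
    intro y hy
    by_cases h0 : ms y = 0
    · exact Or.inl h0
    · right
      have e1 := hMk0 y h0
      simp only [PL, LA, Finset.mem_filter, Finset.mem_univ, true_and] at hy
      exact hy.1.2.trans_le e1
  have hqq1 : 1 ≤ 64 * D := by omega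
  have hqr : (1 : ℝ) ≤ ((64 * D : ℕ) : ℝ) := by exact_mod_cast hqq1
  have hlq : 0 ≤ Real.logb 2 ((64 * D : ℕ) : ℝ) := Real.logb_nonneg (by norm_num) hqr
  have hρ : ∀ Q : Finset V, Q ⊆ PL G (d ^ 2) (d ^ 4) T1 (T1 ∪ EE G (d ^ 2) T1) → Q.Nonempty →
      (∀ y ∈ Q, IN G (2 * d ^ 2) T1 y ⊆ Q) →
      ∃ y ∈ Q, 1 + Real.logb 2 (kc G (T1 ∪ EE G (d ^ 2) T1) y) ≤
        1 + Real.logb 2 ((64 * D : ℕ) : ℝ) := by
    intro Q hQ hne hQc
    by_contra hcon
    push Not at hcon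
    have hbig : ∀ y ∈ Q, 64 * D < kc G (T1 ∪ EE G (d ^ 2) T1) y := by
      intro y hy
      by_contra hle
      have hy0 : y ∉ T1 ∪ EE G (d ^ 2) T1 := by
        have := hQ hy
        simp only [PL, Finset.mem_filter] at this
        exact this.2
      have hpos : 0 < kc G (T1 ∪ EE G (d ^ 2) T1) y :=
        Finset.card_pos.2 ⟨y, mem_self G hy0⟩
      have e1 : Real.logb 2 (kc G (T1 ∪ EE G (d ^ 2) T1) y) ≤
          Real.logb 2 ((64 * D : ℕ) : ℝ) := by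
        refine Real.logb_le_logb_of_le (by norm_num) (by exact_mod_cast hpos) ?_
        exact_mod_cast not_lt.1 hle
      have e2 := hcon y hy
      linarith
    obtain ⟨e1, e2⟩ := h_CLO V G ∅ ∅ T1 T1 Q D (64 * D) D (d ^ 2) (d ^ 4) hd2 hqq hCx
      (Finset.Subset.refl _) hQ hQc hbig
    obtain ⟨y, hy, hyT⟩ := hCx.cls Q e1 hne e2
    have := hQ hy
    simp only [PL, Finset.mem_filter] at this
    exact this.2 (hT20 hyT)
  obtain ⟨T', ms', s, x, e, -, k2, k3, k4, k5, -, k7, k9⟩ :=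
    h_LVC V G (d ^ 2) (d ^ 4) (2 * d) ((K0 - 1) / 2) (nx d) (Fintype.card V / lam d ^ 2) T1
      (T1 ∪ EE G (d ^ 2) T1) ms (c + lam d * (2 * Fintype.card V / d))
      (1 + Real.logb 2 ((64 * D : ℕ) : ℝ)) hn1 hnx hdistK (by linarith) hLv hMk0 hms hPLm
      (co_mono hCo3 (le_of_eq (by ring))) hρ
  refine ⟨T', ms', ?_, k7, co_mono k9 ?_⟩
  · intro u v hu hv huv
    by_contra hcon
    push Not at hcon
    have e1 := k2 u v hu hv huv hcon
    have e2 := hdist u v huv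
    omega
  · have hl0 : 0 < lam d := lt_of_lt_of_le (Nat.succ_pos _) n7
    have c5 := num_aux KH (lam d) (d ^ 4) e (Fintype.card V) hl0 n6 k4
    have hscp := scp_card h_NCP h_ELO G (d ^ 2) (d ^ 4) K0 T1 (T1 ∪ EE G (d ^ 2) T1) (by omega)
      (h_SYS V G (d ^ 2) (d ^ 4) (2 * d) T1 (T1 ∪ EE G (d ^ 2) T1) hLv).sym hdist
    have hK0s : K0 * s ≤ 4 * Fintype.card V := by
      have e1 : K0 ≤ 4 * ((K0 - 1) / 2) := by omega
      calc K0 * s ≤ 4 * ((K0 - 1) / 2) * s := Nat.mul_le_mul_right _ e1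
        _ = 4 * ((K0 - 1) / 2 * s) := by ring
        _ ≤ 4 * Fintype.card V := Nat.mul_le_mul_left _ k3
    clear hms hdist hdistK k7 hKK n6
    have hN : (0 : ℝ) < Fintype.card V := by exact_mod_cast hn1
    have hdr : (0 : ℝ) < d := by exact_mod_cast hd1
    have hK0r : (0 : ℝ) < K0 := by exact_mod_cast (by omega : 0 < K0)
    have hm : (40005 : ℝ) ≤ (lam d : ℝ) := by exact_mod_cast n7
    have hm0 : (0 : ℝ) < (lam d : ℝ) := by linarith
    have c2 : (lam d : ℝ) * (2 * Fintype.card V / d) ≤ Fintype.card V / lam d := by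
      have e1 : (8 : ℝ) * (lam d : ℝ) ^ 2 ≤ d := by exact_mod_cast n3
      rw [le_div_iff₀ hm0]
      have e2 : (lam d : ℝ) * (2 * Fintype.card V / d) * lam d =
          Fintype.card V * (2 * (lam d : ℝ) ^ 2) / d := by ring
      rw [e2, div_le_iff₀ hdr]
      refine mul_le_mul_of_nonneg_left ?_ hN.le
      have : 0 ≤ (lam d : ℝ) ^ 2 := by positivity
      linarith
    have c1 : (1 + Real.logb 2 ((64 * D : ℕ) : ℝ)) *
        ((SCP (IN G (2 * d ^ 2) T1) (PL G (d ^ 2) (d ^ 4) T1 (T1 ∪ EE G (d ^ 2) T1))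
          ((K0 - 1) / 2)).card : ℝ) ≤
        (1 + Real.logb 2 ((64 * D : ℕ) : ℝ)) * (Fintype.card V / (d : ℝ) ^ 4) := by
      refine mul_le_mul_of_nonneg_left ?_ (by linarith)
      rw [le_div_iff₀ (by positivity), mul_comm]
      exact_mod_cast hscp
    have c3 : (1 + Real.logb 2 ((64 * D : ℕ) : ℝ)) * (s : ℝ) ≤
        (1 + Real.logb 2 ((64 * D : ℕ) : ℝ)) * (4 * Fintype.card V / K0) := by
      refine mul_le_mul_of_nonneg_left ?_ (by linarith)
      rw [le_div_iff₀ hK0r, mul_comm]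
      exact_mod_cast hK0s
    have hx : (x : ℝ) ≤ Fintype.card V / (lam d : ℝ) ^ 2 := by
      rw [le_div_iff₀ (by positivity)]
      have e1 := h_XBD (Fintype.card V) (lam d) (1 + d ^ 4 + 2 * d * (2 * d ^ 2)) (by omega)
        (by unfold nx at hnx; exact hnx) n5
      refine le_trans (mul_le_mul_of_nonneg_right k5 (by positivity)) (le_trans (le_of_eq ?_) e1)
      unfold nx
      push_cast
      ring
    have hk : ((Fintype.card V / lam d ^ 2 : ℕ) : ℝ) ≤ Fintype.card V / (lam d : ℝ) ^ 2 := by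
      have := @Nat.cast_div_le ℝ _ _ _ (Fintype.card V) (lam d ^ 2)
      push_cast at this
      exact this
    have c4 : 4 * (1 + Real.logb 2 ((d ^ 4 : ℕ) : ℝ)) *
        (((Fintype.card V / lam d ^ 2 : ℕ) : ℝ) + x) ≤ 8 * (Fintype.card V / lam d) := by
      have e1 : 4 * (1 + Real.logb 2 ((d ^ 4 : ℕ) : ℝ)) ≤ 4 * (lam d : ℝ) := by linarith
      have e2 : ((Fintype.card V / lam d ^ 2 : ℕ) : ℝ) + x ≤
          2 * (Fintype.card V / (lam d : ℝ) ^ 2) := by linarith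
      calc 4 * (1 + Real.logb 2 ((d ^ 4 : ℕ) : ℝ)) *
            (((Fintype.card V / lam d ^ 2 : ℕ) : ℝ) + x)
          ≤ 4 * (lam d : ℝ) * (((Fintype.card V / lam d ^ 2 : ℕ) : ℝ) + x) :=
            mul_le_mul_of_nonneg_right e1 (by positivity)
        _ ≤ 4 * (lam d : ℝ) * (2 * (Fintype.card V / (lam d : ℝ) ^ 2)) :=
            mul_le_mul_of_nonneg_left e2 (by positivity)
        _ = 8 * (Fintype.card V / lam d) := by
            field_simp
            ring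
    have hNm : 0 ≤ (Fintype.card V : ℝ) / lam d := div_nonneg hN.le hm0.le
    refine le_trans (L2C_.fin_aux c _ _ _ _ _ _ _ (Ph ms') (Fintype.card V) (lam d)
      c2 c1 c3 c4 c5 hNm) (le_of_eq ?_)
    ring

end Pool.Agent.NRU
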