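import Pool.Agent.NRU.Targets
import Pool.Agent.NRR.P_LVK
import Pool.Agent.NRP.P_LEV

/-!
# NRU-LVC: all closed sets are cheap
-/

set_option autoImplicit false

open Finset Classical

namespace Pool.Agent.NRU

open Pool.Agent Pool.Agent.Lib.Recon Pool.Agent.RNB Pool.Agent.NRC Pool.Agent.NRP
  Pool.Agent.NRR

namespace LVC_

variable {V : Type} [Fintype V]

/-- the members of `SCP` are nonempty closed subsets of `P` -/
theorem SCP_prop (I : V → Finset V) (P : Finset V) (M : ℕ) (K : Finset V)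
    (h : K ∈ SCP I P M) : K ⊆ P ∧ K.Nonempty ∧ ∀ y ∈ K, I y ⊆ K := by
  unfold SCP at h
  rw [mem_image] at h
  obtain ⟨y, hy, rfl⟩ := h
  rw [mem_filter] at hy
  refine ⟨?_, ⟨y, ?_⟩, hy.2.2⟩
  · intro z hz
    exact LEV_cmp_sub P hy.1 (fun _ _ b _ hb => hb) z hz
  · rw [LVK_.mem_cmp]

end LVC_

open LVC_ NRR.LVK_ in
/-- LVC -/
theorem p_LVC (h1 : NRP.T_LVS) : T_LVC := by
  intro V _ G g q h M d k A T0 ms c ρ hn hd hdist hρ0 hLv hMk hKH hq hCo hcl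
  have hne : Nonempty V := Fintype.card_pos_iff.1 (by omega)
  set I : V → Finset V := IN G (2 * g) A with hI
  set P : Finset V := PL G g q A T0 with hPdef
  have hex : ∀ K : Finset V, K ∈ SCP I P M →
      ∃ y, y ∈ K ∧ y ∉ T0 ∧ 1 + Real.logb 2 (kc G T0 y) ≤ ρ := by
    intro K hK
    obtain ⟨hKP, hKne, hKcl⟩ := SCP_prop I P M K hK
    obtain ⟨y, hy, h3⟩ := hcl K hKP hKne hKcl
    exact ⟨y, hy, ((mem_PL G g q A T0 y).1 (hKP hy)).2, h3⟩
  choose! f hf using hex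
  set Q2 : Finset V := (SCP I P M).image f with hQ2
  have hsub : T0 ⊆ T0 ∪ Q2 := Finset.subset_union_left
  have hcard : (Q2.card : ℝ) ≤ (SCP I P M).card := by
    exact_mod_cast Finset.card_image_le
  have hCo1 : Co G (T0 ∪ Q2) (c + ρ * (SCP I P M).card + Ph ms) := by
    have h2 : Co G (T0 ∪ Q2) (c + Ph ms + ρ * (Q2.card : ℝ)) := by
      refine LEV_roots G T0 (c + Ph ms) ρ hCo Q2 ?_
      intro y hy
      rw [hQ2, mem_image] at hy
      obtain ⟨K, hK, rfl⟩ := hy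
      exact (hf K hK).2
    refine Co_le h2 ?_
    have h3 := mul_le_mul_of_nonneg_left hcard hρ0
    linarith
  have hLv1 : Lv G g q h A (T0 ∪ Q2) :=
    ⟨hLv.sub.trans hsub, hLv.g1, hLv.h1, hLv.q1, hLv.q2,
      fun y hy => hLv.ind y (PL_anti G g q A hsub hy)⟩
  have hMk1 : Mk (kc G) (T0 ∪ Q2) ms := fun y hy => (kc_anti G hsub y).trans (hMk y hy)
  have hcl1 : ∀ Q : Finset V, Q ⊆ PL G g q A (T0 ∪ Q2) → M < Q.card →
      (∀ y ∈ Q, IN G (2 * g) A y ⊆ Q) →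
      ∃ y ∈ Q, 1 + Real.logb 2 (kc G (T0 ∪ Q2) y) ≤ ρ := by
    intro Q hQ hM hQcl
    have hQne : Q.Nonempty := Finset.card_pos.1 (by omega)
    obtain ⟨y, hy, h3⟩ := hcl Q (hQ.trans (PL_anti G g q A hsub)) hQne hQcl
    refine ⟨y, hy, le_trans ?_ h3⟩
    have h4 : y ∉ T0 ∪ Q2 := ((mem_PL G g q A _ y).1 (hQ hy)).2
    have h5 := one_le_kc G h4
    have h6 := kc_anti G hsub y
    have h7 : Real.logb 2 (kc G (T0 ∪ Q2) y) ≤ Real.logb 2 (kc G T0 y) :=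
      Real.logb_le_logb_of_le (by norm_num) (by exact_mod_cast h5) (by exact_mod_cast h6)
    linarith
  rcases h1 V G g q h M d k A (T0 ∪ Q2) ms
    (c + ρ * (SCP I P M).card) ρ hn hd hdist hLv1 hMk1 hKH
    (fun y hy => hq y (PL_anti G g q A hsub hy)) hCo1 hcl1 with h3 | h3
  · exfalso
    obtain ⟨Q, hQ⟩ := h3
    have h4 : Q ∈ SCP I P M := Sc_mem I P _ M Q (PL_anti G g q A hsub) hQ
    have h5 : f Q ∈ Q := (hf Q h4).1
    have h6 := hQ.1 h5
    rw [mem_PL] at h6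
    exact h6.2 (mem_union_right _ (mem_image_of_mem f h4))
  · obtain ⟨T', ms', s, x, e, h4, h5, h6, h7, h8, h9, h10, -, h12⟩ := h3
    exact ⟨T', ms', s, x, e, hsub.trans h4, h5, h6, h7, h8, h9, h10, h12⟩

end Pool.Agent.NRU
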