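import Pool.Agent.NRU.Targets

/-!
# NRU, NUU: numbers
-/

set_option autoImplicit false

open Finset Classical

namespace Pool.Agent.NRU

open Pool.Agent Pool.Agent.Lib.Recon Pool.Agent.RNB Pool.Agent.NRC Pool.Agent.NRP
  Pool.Agent.NRR

namespace NUU_

theorem ex_D0 (N : ℕ) : ∃ D0 : ℕ, ∀ D : ℕ, D0 ≤ D → N ≤ Nat.log 2 D :=
  ⟨2 ^ N, fun _ h => Nat.le_log_of_pow_le (by norm_num) h⟩

theorem pow6 (l : ℕ) (hl : 60 ≤ l) : 256 * (l + 7) ^ 6 ≤ 2 ^ l := by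
  induction l, hl using Nat.le_induction with
  | base => norm_num
  | succ l hl ih =>
    have h1 : 67 * (l + 1 + 7) ≤ 68 * (l + 7) := by omega
    have h2 := Nat.pow_le_pow_left h1 6
    rw [mul_pow, mul_pow] at h2
    have h3 : (68 : ℕ) ^ 6 ≤ 2 * 67 ^ 6 := by norm_num
    have h4 : 67 ^ 6 * (l + 1 + 7) ^ 6 ≤ 67 ^ 6 * (2 * (l + 7) ^ 6) := by
      calc 67 ^ 6 * (l + 1 + 7) ^ 6 ≤ 68 ^ 6 * (l + 7) ^ 6 := h2
        _ ≤ (2 * 67 ^ 6) * (l + 7) ^ 6 := Nat.mul_le_mul_right _ h3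
        _ = 67 ^ 6 * (2 * (l + 7) ^ 6) := by ring
    have h5 : (l + 1 + 7) ^ 6 ≤ 2 * (l + 7) ^ 6 := Nat.le_of_mul_le_mul_left h4 (by norm_num)
    calc 256 * (l + 1 + 7) ^ 6 ≤ 256 * (2 * (l + 7) ^ 6) := Nat.mul_le_mul_left _ h5
      _ = (256 * (l + 7) ^ 6) * 2 := by ring
      _ ≤ 2 ^ l * 2 := Nat.mul_le_mul_right _ ih
      _ = 2 ^ (l + 1) := (pow_succ 2 l).symm

theorem pow3 (k : ℕ) (hk : 40 ≤ k) : 2 * (574992 * k ^ 3 + 7) ≤ 2 ^ k := by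
  induction k, hk using Nat.le_induction with
  | base => norm_num
  | succ k hk ih =>
    have h5 : (k + 1) ^ 3 ≤ 2 * k ^ 3 := by nlinarith [pow_pos (show 0 < k by omega) 2]
    rw [pow_succ 2 k]
    omega

theorem log64 {D : ℕ} (hD : D ≠ 0) : Nat.log 2 (64 * D) = Nat.log 2 D + 6 := by
  have h1 := Nat.pow_log_le_self 2 hD
  have h2 := Nat.lt_pow_succ_log_self (b := 2) (by norm_num) D
  rw [Nat.log_eq_iff (Or.inr ⟨by norm_num, by omega⟩)]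
  have e1 : 2 ^ (Nat.log 2 D + 6) = 2 ^ Nat.log 2 D * 64 := by rw [pow_add]; norm_num
  have e2 : 2 ^ (Nat.log 2 D + 6 + 1) = 2 ^ (Nat.log 2 D + 1) * 64 := by
    rw [show Nat.log 2 D + 6 + 1 = Nat.log 2 D + 1 + 6 by omega, pow_add _ _ 6]
    norm_num
  constructor <;> omega

theorem nx_le (l : ℕ) (hl : 2 ^ 40 ≤ l) : nx (16 * (l + 7) ^ 3) ≤ l := by
  obtain ⟨k, hk⟩ : ∃ k, k = Nat.log 2 (l + 7) + 1 := ⟨_, rfl⟩
  have h1 : l + 7 < 2 ^ k := by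
    rw [hk]
    exact Nat.lt_pow_succ_log_self (by norm_num) _
  have h2 : 2 ^ k ≤ 2 * (l + 7) := by
    have := Nat.pow_log_le_self 2 (show l + 7 ≠ 0 by omega)
    rw [hk, pow_succ]
    omega
  have h3 : 40 ≤ k := by
    have : 40 ≤ Nat.log 2 (l + 7) := Nat.le_log_of_pow_le (by norm_num) (by omega)
    omega
  have h4 : 16 * (l + 7) ^ 3 < 2 ^ (4 + 3 * k) := by
    rw [pow_add, mul_comm 3, pow_mul]
    have := Nat.pow_lt_pow_left h1 (n := 3) (by norm_num)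
    norm_num
    omega
  have h5 : Nat.log 2 (16 * (l + 7) ^ 3) < 4 + 3 * k :=
    Nat.log_lt_of_lt_pow (by positivity) h4
  have h6 : lam (16 * (l + 7) ^ 3) ≤ 33 * k := by
    unfold lam
    omega
  have h7 := pow3 k h3
  have h8 : lam (16 * (l + 7) ^ 3) ^ 3 ≤ 35937 * k ^ 3 := by
    have := Nat.pow_le_pow_left h6 3
    rw [mul_pow] at this
    norm_num at this
    exact this
  unfold nx
  omega

theorem core (K H D l : ℕ) (hH : H ≤ K) (hl : 6000 * K + 1099511627776 ≤ l)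
    (h1 : 2 ^ l ≤ D) (h2 : l < D) :
    K ≤ 16 * (l + 7) ^ 3 ∧ 2 * D + (16 * (l + 7) ^ 3) ^ 2 + 2 ≤ 64 * D ∧
    16 * (l + 7) ^ 3 ≤ D ∧ nx (16 * (l + 7) ^ 3) ≤ l ∧
    20000 ≤ l + 7 ∧ 6000 * H ≤ 64 * D ∧ 64 * D < D ^ 4 ∧ 1 ≤ l := by
  have h4 : 256 * (l + 7) ^ 6 ≤ D := (pow6 l (by omega)).trans h1
  have h5 : (l + 7) ^ 3 ≤ (l + 7) ^ 6 := Nat.pow_le_pow_right (by omega) (by norm_num)
  have h6 : (l + 7) ^ 1 ≤ (l + 7) ^ 3 := Nat.pow_le_pow_right (by omega) (by norm_num)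
  rw [pow_one] at h6
  have h7 : (16 * (l + 7) ^ 3) ^ 2 = 256 * (l + 7) ^ 6 := by ring
  have h9 : D ^ 2 ≤ D ^ 4 := Nat.pow_le_pow_right (by omega) (by norm_num)
  have h8 : 65 * D ≤ D ^ 2 := by
    rw [pow_two]
    exact Nat.mul_le_mul_right _ (by omega)
  refine ⟨?_, ?_, ?_, nx_le l (by norm_num; omega), ?_, ?_, ?_, ?_⟩
  · omega
  · rw [h7]
    omega
  all_goals omega

theorem KH_le : KH ≤ KK := Nat.pow_le_pow_right (by norm_num) (by norm_num)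

end NUU_

open NUU_

/-- Numbers. -/
theorem p_NUU : T_NUU := by
  obtain ⟨D0, h0⟩ := ex_D0 (6000 * KK + 1099511627776)
  refine ⟨D0, fun D hD => ?_⟩
  have hl := h0 D hD
  have hD0 : D ≠ 0 := by
    rintro rfl
    rw [Nat.log_zero_right] at hl
    have := le_trans (Nat.le_add_left 1099511627776 (6000 * KK)) hl
    norm_num at this
  rw [log64 hD0]
  exact core KK KH D (Nat.log 2 D) KH_le hl (Nat.pow_log_le_self 2 hD0) (Nat.log_lt_self 2 hD0)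

end Pool.Agent.NRU
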