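import Pool.Agent.NRU.Targets

/-!
# NRU-UFN: the main case
-/

set_option autoImplicit false

open Finset Classical

namespace Pool.Agent.NRU

open Pool.Agent Pool.Agent.Lib.Recon Pool.Agent.RNB Pool.Agent.NRC Pool.Agent.NRP
open Pool.Agent.NRR

namespace UFN_

theorem two_pow_ge : ∀ k : ℕ, 16 ≤ k → 2000 * (k + 2) ≤ 2 ^ k := by
  intro k hk
  induction k, hk using Nat.le_induction with
  | base => norm_num
  | succ k hk ih =>
    rw [pow_succ]
    omega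

theorem logb_le {n : ℕ} (hn : n ≠ 0) : Real.logb 2 (n : ℝ) ≤ (Nat.log 2 n : ℝ) + 1 := by
  have h1 : n < 2 ^ (Nat.log 2 n + 1) := Nat.lt_pow_succ_log_self (by norm_num) n
  have h2 : (n : ℝ) ≤ (2 : ℝ) ^ (Nat.log 2 n + 1) := by exact_mod_cast h1.le
  have hn0 : (0 : ℝ) < n := by exact_mod_cast Nat.pos_of_ne_zero hn
  calc Real.logb 2 (n : ℝ) ≤ Real.logb 2 ((2 : ℝ) ^ (Nat.log 2 n + 1)) :=
        Real.logb_le_logb_of_le (by norm_num) hn0 h2
    _ = (Nat.log 2 n : ℝ) + 1 := by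
        rw [Real.logb_pow, Real.logb_self_eq_one (by norm_num)]
        push_cast
        ring

theorem log_small {n : ℕ} (hn : 2 ^ 16 ≤ n) : 2 * (1 + Real.logb 2 (n : ℝ)) ≤ n / 1000 := by
  have hn0 : n ≠ 0 := by
    intro h
    rw [h] at hn
    norm_num at hn
  have h1 := logb_le hn0
  have h2 : 16 ≤ Nat.log 2 n := (Nat.le_log_iff_pow_le (by norm_num) hn0).2 hn
  have h3 := two_pow_ge _ h2
  have h4 : 2 ^ Nat.log 2 n ≤ n := Nat.pow_log_le_self 2 hn0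
  have h5 : (2000 * ((Nat.log 2 n : ℕ) + 2) : ℝ) ≤ n := by exact_mod_cast h3.trans h4
  linarith

theorem Ph_le {V : Type} [Fintype V] (h_PW : NRP.T_PW) (h : 6 * pw KH ≤ 1 / 1000) (ms : V → ℕ)
    (hms : ∀ y, ms y = 0 ∨ KH ≤ ms y) : Ph ms ≤ Fintype.card V / 1000 := by
  obtain ⟨h1, -, h3⟩ := h_PW
  have hKH : 1 ≤ KH := by
    unfold KH
    exact Nat.one_le_two_pow
  have h4 : ∀ y, 6 * pw (ms y) ≤ 1 / 1000 := by
    intro y
    rcases hms y with h0 | h0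
    · rw [h0]
      have : pw 0 = 0 := by simp [pw]
      rw [this]
      norm_num
    · have := h1 KH (ms y) hKH h0
      linarith
  calc Ph ms = ∑ y, 6 * pw (ms y) := rfl
    _ ≤ ∑ _y : V, (1 / 1000 : ℝ) := Finset.sum_le_sum fun y _ => h4 y
    _ = Fintype.card V / 1000 := by
        rw [Finset.sum_const, Finset.card_univ, nsmul_eq_mul]
        ring

theorem m_le {D : ℕ} (hD : 1 ≤ Nat.log 2 D) : Nat.log 2 (64 * D) + 1 ≤ 8 * Nat.log 2 D := by
  have h1 : D < 2 ^ (Nat.log 2 D + 1) := Nat.lt_pow_succ_log_self (by norm_num) D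
  have h2 : 64 * D < 2 ^ (Nat.log 2 D + 7) := by
    calc 64 * D < 64 * 2 ^ (Nat.log 2 D + 1) := by omega
      _ = 2 ^ (Nat.log 2 D + 7) := by
        rw [show Nat.log 2 D + 7 = (Nat.log 2 D + 1) + 6 from rfl, pow_add _ _ 6]
        ring
  have hD0 : 64 * D ≠ 0 := by
    intro h
    have : D = 0 := by omega
    rw [this] at hD
    norm_num at hD
  have h3 : Nat.log 2 (64 * D) < Nat.log 2 D + 7 := Nat.log_lt_of_lt_pow hD0 h2
  omega

/-- the numbers -/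
theorem total {n l L w E K P m d D : ℝ} (hn : 0 ≤ n) (h1 : 2 * (1 + l) ≤ n / 1000)
    (hm : 20000 ≤ m) (hD : 6000 * E ≤ 64 * D) (hD0 : 1 ≤ D) (hw : 40005 ≤ w)
    (hL : 1 + L ≤ 2 * m) (hd : 2000 * m ≤ d) (hK : 8000 * m ≤ K)
    (hP : P ≤ n / 1000) :
    100 * (2 * (1 + l) + 16 * n / m + 6 * E * (n / (64 * D)) + 18 * n / w +
      (1 + L) * (n / d + 4 * n / K) + P) ≤ n := by
  have e1 : 16 * n / m ≤ n / 1000 := by
    rw [div_le_div_iff₀ (by linarith) (by norm_num)]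
    nlinarith
  have e2 : 6 * E * (n / (64 * D)) ≤ n / 1000 := by
    rw [mul_div_assoc', div_le_div_iff₀ (by linarith) (by norm_num)]
    nlinarith
  have e3 : 18 * n / w ≤ n / 1000 := by
    rw [div_le_div_iff₀ (by linarith) (by norm_num)]
    nlinarith
  have e4 : n / d ≤ n / (2000 * m) := div_le_div_of_nonneg_left hn (by linarith) hd
  have e5 : 4 * n / K ≤ 4 * n / (8000 * m) :=
    div_le_div_of_nonneg_left (by linarith) (by linarith) hK
  have e6 : (1 + L) * (n / d + 4 * n / K) ≤ 2 * m * (n / (2000 * m) + 4 * n / (8000 * m)) := by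
    have h0 : 0 ≤ n / d := div_nonneg hn (by linarith)
    have h0' : 0 ≤ 4 * n / K := div_nonneg (by linarith) (by linarith)
    exact mul_le_mul hL (add_le_add e4 e5) (by linarith) (by linarith)
  have e7 : 2 * m * (n / (2000 * m) + 4 * n / (8000 * m)) = 2 * (n / 1000) := by
    have hm0 : m ≠ 0 := by linarith
    field_simp
    ring
  rw [e7] at e6
  linarith

end UFN_

open UFN_ in
/-- The main case. -/
theorem p_UFN (h_L1C : T_L1C) (h_L2C : T_L2C) (h_NUU : T_NUU) (h_DON : NRP.T_DON)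
    (h_PW : NRP.T_PW) (h_NLV : NRP.T_NLV) : T_UFN := by
  obtain ⟨D0, HN⟩ := h_NUU
  obtain ⟨n0, HD⟩ := h_DON
  obtain ⟨hpw, -⟩ := h_NLV
  refine ⟨64000 + KK + D0 + n0, by omega, ?_⟩
  intro V _ G H D hconn hcard hdeg hCD hDn hdiff
  obtain ⟨C, hC⟩ : ∃ C, C = 64000 + KK + D0 + n0 := ⟨_, rfl⟩
  rw [← hC] at hCD hdiff
  have hC1 : 64000 ≤ C := by omega
  have hC2 : KK ≤ C := by omega
  have hC3 : D0 ≤ C := by omega
  have hC4 : n0 ≤ C := by omega
  obtain ⟨a1, a2, a3, a4, a5, a6, a7, a8⟩ := HN D (hC3.trans hCD)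
  have hD1 : 1 ≤ D := by omega
  have hDD : D ≤ D ^ 4 := Nat.le_self_pow (by norm_num) D
  have hnD : D ≤ Fintype.card V := hDD.trans hDn
  have hn64 : 64 * D < Fintype.card V := a7.trans_le hDn
  obtain ⟨m, hm⟩ : ∃ m, m = Nat.log 2 (64 * D) + 1 := ⟨_, rfl⟩
  have hm8 := m_le a8
  rw [← hm] at a1 a2 a3 a4 a5 hm8
  obtain ⟨K0, hK0⟩ : ∃ K0, K0 = C * Nat.log 2 D := ⟨_, rfl⟩
  rw [← hK0] at hdiff
  have hCK : C ≤ K0 := by
    rw [hK0]
    exact Nat.le_mul_of_pos_right _ a8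
  have hlK : Nat.log 2 D ≤ K0 := by
    rw [hK0]
    exact Nat.le_mul_of_pos_left _ (by omega)
  have hmK : 8000 * m ≤ K0 := by
    rw [hK0]
    calc 8000 * m ≤ 8000 * (8 * Nat.log 2 D) := Nat.mul_le_mul_left _ hm8
      _ = 64000 * Nat.log 2 D := by ring
      _ ≤ C * Nat.log 2 D := Nat.mul_le_mul_right _ hC1
  have hdn : 16 * m ^ 3 ≤ Fintype.card V := a3.trans hnD
  obtain ⟨T1, ms, x1, x2, x3, x4, x5⟩ := h_L1C V G D m hconn hdeg hD1 hn64 (by omega) hm hdn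
    fun u v huv => (hC2.trans hCK).trans (hdiff u v huv)
  obtain ⟨T', ms', y1, y2, y3⟩ := h_L2C V G D (16 * m ^ 3) K0 T1 ms _ x1 a1 hdn a2
    (hC2.trans hCK) (a4.trans hlK) hdiff x2 x3 x4 x5
  refine HD V G H T' _ (hC4.trans (hCD.trans hnD)) hcard y1 y3 ?_
  have hn16 : 2 ^ 16 ≤ Fintype.card V := by omega
  have hL : Real.logb 2 ((64 * D : ℕ) : ℝ) ≤ m := by
    rw [hm]
    push_cast
    have := logb_le (n := 64 * D) (by omega)
    push_cast at this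
    exact this
  have hL0 : 0 ≤ Real.logb 2 ((64 * D : ℕ) : ℝ) :=
    Real.logb_nonneg (by norm_num) (by exact_mod_cast (by omega : 1 ≤ 64 * D))
  have hmR : (20000 : ℝ) ≤ m := by exact_mod_cast a5
  have hlam : 40005 ≤ lam (16 * m ^ 3) := (NRP.p_NUM _ a1).2.2.2.2.2.2
  have hd4 : 2000 * m ≤ (16 * m ^ 3) ^ 4 := by
    have e1 : m ≤ 16 * m ^ 3 := by
      calc m ≤ m ^ 3 := Nat.le_self_pow (by norm_num) m
        _ ≤ 16 * m ^ 3 := Nat.le_mul_of_pos_left _ (by norm_num)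
    have e2 : 2000 ≤ 16 * m ^ 3 := by omega
    calc 2000 * m ≤ (16 * m ^ 3) * (16 * m ^ 3) := Nat.mul_le_mul e2 e1
      _ = (16 * m ^ 3) ^ 2 := by ring
      _ ≤ (16 * m ^ 3) ^ 4 := Nat.pow_le_pow_right (by omega) (by norm_num)
  have key := total (n := Fintype.card V) (l := Real.logb 2 (Fintype.card V))
    (L := Real.logb 2 ((64 * D : ℕ) : ℝ)) (w := lam (16 * m ^ 3)) (E := KH) (K := K0)
    (P := Ph ms') (m := m) (d := ((16 * m ^ 3 : ℕ) : ℝ) ^ 4) (D := D) (Nat.cast_nonneg _)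
    (log_small hn16) hmR (by exact_mod_cast a6) (by exact_mod_cast hD1)
    (by exact_mod_cast hlam) (by linarith) (by exact_mod_cast hd4)
    (by exact_mod_cast hmK) (Ph_le h_PW hpw ms' y2)
  refine le_trans (le_of_eq ?_) key
  ring

end Pool.Agent.NRU
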