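import Pool.Agent.NRU.Main
import Pool.Agent.NRU.P_INN
import Pool.Agent.NRU.P_L1C
import Pool.Agent.NRU.P_L2C
import Pool.Agent.NRU.P_LVC
import Pool.Agent.NRU.P_NUU
import Pool.Agent.NRU.P_UFN
import Pool.Agent.NRR.P_NCP

/-!
# NRU: all blocks together
-/

set_option autoImplicit false

namespace Pool.Agent.NRU

/-- all blocks together -/
theorem a_UFN : T_UFN :=
  p_UFN (p_L1C p_INN NRP.a_LVS NRP.p_XBD)
    (p_L2C (p_LVC NRP.a_LVS) (NRR.p_NCP NRC.p_NCV) (NRP.p_SYS NRP.p_ARR) NRC.p_ELO NRP.a_LVT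
      NRP.a_ECO NRP.p_CLO NRP.p_NUM NRP.p_XBD) p_NUU NRP.a_DON NRP.p_PW NRP.p_NLV

end Pool.Agent.NRU
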