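import Pool.Agent.NRU.Main
import Pool.Agent.NRV.Targets

/-!
# The number of reconstructions: all parts with one constant, with the smoothed form
-/

set_option autoImplicit false

open Finset Classical

namespace Pool.Agent.NRU

open Pool.Agent Pool.Agent.Lib.Recon Pool.Agent.RNB Pool.Agent.NRC Pool.Agent.NRP

theorem all_four (h_UFN : T_UFN) (h_SMO : NRV.T_SMO) : ∃ C : ℝ, 0 < C ∧
    (∀ (V : Type) [Fintype V] (G : SimpleGraph V), 3 ≤ Fintype.card V → ∀ m : ℝ,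
      (C ≤ m ∨
      (∃ D : ℕ, 16 * (Real.logb 2 D) ^ 2 ≤ m ∧
        ((∀ v, (G.neighborSet v).ncard ≤ D) ∨ ∀ v, (Gᶜ.neighborSet v).ncard ≤ D)) ∨
      (1 ≤ m ∧ ∃ u v, u ≠ v ∧
        ({w : V | w ≠ u ∧ w ≠ v ∧ ¬ (G.Adj w u ↔ G.Adj w v)}.ncard : ℝ) ≤ m)) →
      ∀ (ι : Type) [Fintype ι] (W : ι → Type) [∀ i, Fintype (W i)] (H : ∀ i, SimpleGraph (W i))
      (f : ∀ i, V ≃ W i),
      (∀ i, ∀ v : V,
        Nonempty ({s : Finset V // s.Nonempty ∧ G.IsClique (s : Set V) ∧ v ∉ s} ≃o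
          {t : Finset (W i) // t.Nonempty ∧ (H i).IsClique (t : Set (W i)) ∧ f i v ∉ t})) →
      (∀ i j, i ≠ j →
        ¬ Nonempty ({s : Finset (W i) // s.Nonempty ∧ (H i).IsClique (s : Set (W i))} ≃o
          {t : Finset (W j) // t.Nonempty ∧ (H j).IsClique (t : Set (W j))})) →
      (Fintype.card ι : ℝ) ≤ (Fintype.card V : ℝ) ^ (m + 3)) ∧
    (∀ (V : Type) [Fintype V] (G : SimpleGraph V), 3 ≤ Fintype.card V →
      ((∃ D : ℕ, 2 ≤ D ∧
        ((∀ v, (G.neighborSet v).ncard ≤ D) ∨ ∀ v, (Gᶜ.neighborSet v).ncard ≤ D) ∧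
        ∀ u v, u ≠ v → C * Real.logb 2 D ≤
          ({w : V | w ≠ u ∧ w ≠ v ∧ ¬ (G.Adj w u ↔ G.Adj w v)}.ncard : ℝ)) ∨
      (∃ Y : Finset V, C * Real.logb 2 (Fintype.card V) * Y.card ≤ Fintype.card V ∧
        ∀ u v, u ∉ Y → v ∉ Y → u ≠ v → C * Real.logb 2 (Fintype.card V) ≤
          ({w : V | w ≠ u ∧ w ≠ v ∧ ¬ (G.Adj w u ↔ G.Adj w v)}.ncard : ℝ))) →
      HER47.Rec G) ∧
    (∀ (V : Type) [Fintype V] (H : SimpleGraph V) (S : Finset V), 3 ≤ Fintype.card V →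
      C * Real.logb 2 (Fintype.card V) ≤ S.card →
      ({G : SimpleGraph V | (∀ x y, x ∉ S → y ∉ S → (G.Adj x y ↔ H.Adj x y)) ∧
          ¬ HER47.Rec G}.ncard : ℝ) ≤ (2 : ℝ) ^ (-(S.card : ℝ) / 2) *
        {G : SimpleGraph V | ∀ x y, x ∉ S → y ∉ S → (G.Adj x y ↔ H.Adj x y)}.ncard) := by
  obtain ⟨C1, hC1, h1, h2⟩ := all_parts h_UFN
  obtain ⟨C2, hC2, h3⟩ := h_SMO
  refine ⟨C1 + C2, by positivity, ?_, ?_, ?_⟩
  · intro V _ G hn m hm
    refine h1 V G hn m ?_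
    rcases hm with hm | hm | hm
    · left
      linarith
    · exact Or.inr (Or.inl hm)
    · exact Or.inr (Or.inr hm)
  · intro V _ G hn hG
    have hnR : (3 : ℝ) ≤ Fintype.card V := by exact_mod_cast hn
    have hlog : 0 ≤ Real.logb 2 (Fintype.card V) := Real.logb_nonneg (by norm_num) (by linarith)
    have hCl : C1 * Real.logb 2 (Fintype.card V) ≤ (C1 + C2) * Real.logb 2 (Fintype.card V) :=
      mul_le_mul_of_nonneg_right (by linarith) hlog
    refine h2 V G hn ?_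
    rcases hG with ⟨D, hD, hdeg, hd⟩ | ⟨Y, hY, hd⟩
    · right
      have hDR : (2 : ℝ) ≤ D := by exact_mod_cast hD
      have hlogD : 0 ≤ Real.logb 2 D := Real.logb_nonneg (by norm_num) (by linarith)
      refine ⟨D, hD, hdeg, fun u v huv => le_trans ?_ (hd u v huv)⟩
      exact mul_le_mul_of_nonneg_right (by linarith) hlogD
    · left
      refine ⟨(Y : Set V), ?_, fun u v hu hv huv => ?_⟩
      · rw [Set.ncard_coe_finset]
        exact le_trans (mul_le_mul_of_nonneg_right hCl (Nat.cast_nonneg _)) hY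
      · exact hCl.trans (hd u v (by simpa using hu) (by simpa using hv) huv)
  · intro V _ H S hn hS
    have hnR : (3 : ℝ) ≤ Fintype.card V := by exact_mod_cast hn
    have hlog : 0 ≤ Real.logb 2 (Fintype.card V) := Real.logb_nonneg (by norm_num) (by linarith)
    have hCl : C2 * Real.logb 2 (Fintype.card V) ≤ (C1 + C2) * Real.logb 2 (Fintype.card V) :=
      mul_le_mul_of_nonneg_right (by linarith) hlog
    have h4 := h3 V H S hn (hCl.trans hS)
    have e1 : ({G : SimpleGraph V | (∀ x y, x ∉ S → y ∉ S → (G.Adj x y ↔ H.Adj x y)) ∧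
          ¬ HER47.Rec G}.ncard) = ((NRV.Fam H S).filter (fun G => ¬ HER47.Rec G)).card := by
      rw [← Set.ncard_coe_finset]
      congr 1
      ext G
      simp [NRV.Fam]
    have e2 : ({G : SimpleGraph V | ∀ x y, x ∉ S → y ∉ S → (G.Adj x y ↔ H.Adj x y)}.ncard) =
        (NRV.Fam H S).card := by
      rw [← Set.ncard_coe_finset]
      congr 1
      ext G
      simp [NRV.Fam]
    rw [e1, e2]
    exact h4

end Pool.Agent.NRU
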