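import Pool.Agent.NRU.All
import Pool.Agent.NRU.Main4
import Pool.Agent.NRV.P_TOG
import Pool.Agent.NRV.P_FRA
import Pool.Agent.NRV.P_SMO

/-!
# NRU, NRV: the final theorem
-/

set_option autoImplicit false

namespace Pool.Agent.NRU

/-- the smoothed form -/
theorem a_SMO : NRV.T_SMO := NRV.p_SMO (NRV.p_FRA NRV.p_TOG) NRT.crit

end Pool.Agent.NRU
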