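import Pool.Agent.NRU.Targets
import Pool.Agent.NRT.Crit

/-!
# NRU: graphs whose differences are at least `C log D`: the theorem
-/

set_option autoImplicit false

open Finset Classical

namespace Pool.Agent.NRU

open Pool.Agent Pool.Agent.Lib.Recon Pool.Agent.RNB Pool.Agent.NRC Pool.Agent.NRP

theorem dset_sub {V : Type} [Fintype V] (G : SimpleGraph V) (u v : V) :
    dset G u v ⊆ nb G u ∪ nb G v := by
  intro w hw
  rw [mem_dset] at hw
  rw [mem_union, mem_nb, mem_nb]
  by_contra hcon
  push Not at hcon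
  apply hw.2.2
  constructor
  · intro h
    exact absurd h.symm hcon.1
  · intro h
    exact absurd h.symm hcon.2

/-- hypomorphic graphs are isomorphic if the differences are at least `C log D` -/
theorem logD (h_UFN : T_UFN) : ∃ C : ℝ, 0 < C ∧ ∀ (V : Type) [Fintype V] (G H : SimpleGraph V)
    (D : ℕ), 3 ≤ Fintype.card V → 2 ≤ D → (∀ v, CardIso G H v v) → (∀ v, (nb G v).card ≤ D) →
    (∀ u v, u ≠ v → C * Real.logb 2 D ≤ ((dset G u v).card : ℝ)) →
    ∃ α : V ≃ V, ∀ x y, G.Adj x y ↔ H.Adj (α x) (α y) := by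
  obtain ⟨C1, hC1, h1⟩ := h_UFN
  obtain ⟨C2, hC2, h2⟩ := NRT.crit0
  refine ⟨4 * C2 + 2 * C1, by positivity, fun V _ G H D0 hn hD0 hyp hdeg0 hdiff0 => ?_⟩
  by_contra hne
  have hcon := RNum.conn_of G H hn hyp hne
  -- the degrees are at most `D ≤ n`
  set D : ℕ := min D0 (Fintype.card V) with hDdef
  have hD2 : 2 ≤ D := le_min hD0 (by omega)
  have hDn : D ≤ Fintype.card V := min_le_right _ _
  have hdeg : ∀ v, (nb G v).card ≤ D := fun v =>
    le_min (hdeg0 v) (card_le_univ _)
  have hC : 0 < 4 * C2 + 2 * (C1 : ℝ) := by positivity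
  have hDR : (2 : ℝ) ≤ D := by exact_mod_cast hD2
  have hlogD : 1 ≤ Real.logb 2 D := by
    rw [Real.le_logb_iff_rpow_le (by norm_num) (by linarith), Real.rpow_one]
    exact hDR
  have hdiff : ∀ u v, u ≠ v → (4 * C2 + 2 * C1) * Real.logb 2 D ≤ ((dset G u v).card : ℝ) := by
    intro u v huv
    refine le_trans (mul_le_mul_of_nonneg_left ?_ hC.le) (hdiff0 u v huv)
    refine Real.logb_le_logb_of_le (by norm_num) (by linarith) ?_
    exact_mod_cast min_le_left _ _
  have hnR : (3 : ℝ) ≤ Fintype.card V := by exact_mod_cast hn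
  by_cases hbig : D ^ 4 ≤ Fintype.card V
  · apply hne
    obtain ⟨u, v, huv⟩ := Fintype.exists_pair_of_one_lt_card (α := V) (by omega)
    have h3 := hdiff u v huv
    have h4 : ((dset G u v).card : ℝ) ≤ 2 * D := by
      have h5 := (card_le_card (dset_sub G u v)).trans (card_union_le _ _)
      have h6 := hdeg u
      have h7 := hdeg v
      exact_mod_cast (by omega : (dset G u v).card ≤ 2 * D)
    refine h1 V G H D hcon hyp hdeg ?_ hbig ?_
    · have h5 : (2 * (C1 : ℝ)) * 1 ≤ (4 * C2 + 2 * C1) * Real.logb 2 D :=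
        mul_le_mul (by linarith) hlogD (by norm_num) hC.le
      have h6 : (C1 : ℝ) ≤ D := by linarith
      exact_mod_cast h6
    · intro a b hab
      have h5 := hdiff a b hab
      have h6 : ((Nat.log 2 D : ℕ) : ℝ) ≤ Real.logb 2 D := by
        rw [Real.le_logb_iff_rpow_le (by norm_num) (by linarith), Real.rpow_natCast]
        exact_mod_cast Nat.pow_log_le_self 2 (by omega : D ≠ 0)
      have h7 : ((C1 * Nat.log 2 D : ℕ) : ℝ) ≤ ((dset G a b).card : ℝ) := by
        push_cast
        have h8 : (C1 : ℝ) * (Nat.log 2 D : ℕ) ≤ C1 * Real.logb 2 D :=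
          mul_le_mul_of_nonneg_left h6 (Nat.cast_nonneg _)
        have h9 : (C1 : ℝ) * Real.logb 2 D ≤ (4 * C2 + 2 * C1) * Real.logb 2 D := by
          refine mul_le_mul_of_nonneg_right ?_ (by linarith)
          have : (0 : ℝ) ≤ C1 := Nat.cast_nonneg _
          linarith
        linarith
      exact_mod_cast h7
  · apply hne
    rw [not_le] at hbig
    have h3 : Real.logb 2 (Fintype.card V) ≤ 4 * Real.logb 2 D := by
      have h4 : Real.logb 2 (Fintype.card V) ≤ Real.logb 2 ((D : ℝ) ^ 4) := by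
        refine Real.logb_le_logb_of_le (by norm_num) (by linarith) ?_
        exact_mod_cast hbig.le
      rw [Real.logb_pow] at h4
      exact_mod_cast h4
    refine h2 V G H ∅ hn (by simp) ?_ hyp
    intro u v _ _ huv
    refine le_trans ?_ (hdiff u v huv)
    calc C2 * Real.logb 2 (Fintype.card V) ≤ C2 * (4 * Real.logb 2 D) :=
          mul_le_mul_of_nonneg_left h3 hC2.le
      _ = (4 * C2) * Real.logb 2 D := by ring
      _ ≤ (4 * C2 + 2 * C1) * Real.logb 2 D := by
          refine mul_le_mul_of_nonneg_right ?_ (by linarith)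
          have : (0 : ℝ) ≤ C1 := Nat.cast_nonneg _
          linarith

/-- **The theorem**: `T(G)` is reconstructible if any two vertices are distinguished by at least
`C log D` vertices, where `D ≥ 2` bounds the degrees of `G` or of the complement. -/
theorem logD_rec (h_UFN : T_UFN) : ∃ C : ℝ, 0 < C ∧ ∀ (V : Type) [Fintype V] (G : SimpleGraph V)
    (D : ℕ), 3 ≤ Fintype.card V → 2 ≤ D →
    ((∀ v, (G.neighborSet v).ncard ≤ D) ∨ ∀ v, (Gᶜ.neighborSet v).ncard ≤ D) →
    (∀ u v, u ≠ v → C * Real.logb 2 D ≤ ((dset G u v).card : ℝ)) → HER47.Rec G := by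
  obtain ⟨C, hC, h⟩ := logD h_UFN
  refine ⟨C, hC, fun V _ G D hn hD hdeg hdiff => NRM.p_RCM V G hn fun H hc => ?_⟩
  have hnb : ∀ (K : SimpleGraph V) (v : V), (nb K v).card = (K.neighborSet v).ncard := by
    intro K v
    rw [← Set.ncard_coe_finset (nb K v)]
    congr 1
    ext w
    rw [Finset.mem_coe, mem_nb]
    rfl
  rcases hdeg with hdeg | hdeg
  · exact h V G H D hn hD hc (fun v => by rw [hnb]; exact hdeg v) hdiff
  · refine iso_of_compl (h V Gᶜ Hᶜ D hn hD (fun v => (hc v).compl)
      (fun v => by rw [hnb]; exact hdeg v) ?_)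
    intro u v huv
    rw [dset_compl]
    exact hdiff u v huv

end Pool.Agent.NRU
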