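import Pool.Agent.NRP.Final
import Pool.Agent.NRU.Final

/-!
# The number of reconstructions: all parts with one constant
-/

set_option autoImplicit false

open Finset Classical

namespace Pool.Agent.NRU

open Pool.Agent Pool.Agent.Lib.Recon Pool.Agent.RNB Pool.Agent.NRC Pool.Agent.NRP

theorem ncard_dset {V : Type} [Fintype V] (G : SimpleGraph V) (u v : V) :
    (dset G u v).card = {w : V | w ≠ u ∧ w ≠ v ∧ ¬ (G.Adj w u ↔ G.Adj w v)}.ncard := by
  rw [← Set.ncard_coe_finset (dset G u v)]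
  congr 1
  ext w
  rw [Finset.mem_coe, mem_dset]
  rfl

theorem all_parts (h_UFN : T_UFN) : ∃ C : ℝ, 0 < C ∧
    (∀ (V : Type) [Fintype V] (G : SimpleGraph V), 3 ≤ Fintype.card V → ∀ m : ℝ,
      (C ≤ m ∨
      (∃ D : ℕ, 16 * (Real.logb 2 D) ^ 2 ≤ m ∧
        ((∀ v, (G.neighborSet v).ncard ≤ D) ∨ ∀ v, (Gᶜ.neighborSet v).ncard ≤ D)) ∨
      (1 ≤ m ∧ ∃ u v, u ≠ v ∧
        ({w : V | w ≠ u ∧ w ≠ v ∧ ¬ (G.Adj w u ↔ G.Adj w v)}.ncard : ℝ) ≤ m)) →
      ∀ (ι : Type) [Fintype ι] (W : ι → Type) [∀ i, Fintype (W i)] (H : ∀ i, SimpleGraph (W i))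
      (f : ∀ i, V ≃ W i),
      (∀ i, ∀ v : V,
        Nonempty ({s : Finset V // s.Nonempty ∧ G.IsClique (s : Set V) ∧ v ∉ s} ≃o
          {t : Finset (W i) // t.Nonempty ∧ (H i).IsClique (t : Set (W i)) ∧ f i v ∉ t})) →
      (∀ i j, i ≠ j →
        ¬ Nonempty ({s : Finset (W i) // s.Nonempty ∧ (H i).IsClique (s : Set (W i))} ≃o
          {t : Finset (W j) // t.Nonempty ∧ (H j).IsClique (t : Set (W j))})) →
      (Fintype.card ι : ℝ) ≤ (Fintype.card V : ℝ) ^ (m + 3)) ∧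
    (∀ (V : Type) [Fintype V] (G : SimpleGraph V), 3 ≤ Fintype.card V →
      ((∃ Y : Set V, C * Real.logb 2 (Fintype.card V) * Y.ncard ≤ Fintype.card V ∧
        ∀ u v, u ∉ Y → v ∉ Y → u ≠ v → C * Real.logb 2 (Fintype.card V) ≤
          ({w : V | w ≠ u ∧ w ≠ v ∧ ¬ (G.Adj w u ↔ G.Adj w v)}.ncard : ℝ)) ∨
      (∃ D : ℕ, 2 ≤ D ∧
        ((∀ v, (G.neighborSet v).ncard ≤ D) ∨ ∀ v, (Gᶜ.neighborSet v).ncard ≤ D) ∧
        ∀ u v, u ≠ v → C * Real.logb 2 D ≤
          ({w : V | w ≠ u ∧ w ≠ v ∧ ¬ (G.Adj w u ↔ G.Adj w v)}.ncard : ℝ))) →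
      HER47.Rec G) := by
  obtain ⟨C1, hC1, h1⟩ := NRP.number_min_clique NRP.all
  obtain ⟨C2, hC2, h2⟩ := NRT.crit
  obtain ⟨C3, hC3, h3⟩ := logD_rec h_UFN
  refine ⟨C1 + C2 + C3, by positivity, ?_, ?_⟩
  · intro V _ G hn m hm ι _ W _ H f hdeck hne
    refine h1 V G hn m ?_ ι W H f hdeck hne
    rcases hm with hm | hm | hm
    · left
      linarith
    · exact Or.inr (Or.inl hm)
    · exact Or.inr (Or.inr hm)
  · intro V _ G hn hG
    have hnR : (3 : ℝ) ≤ Fintype.card V := by exact_mod_cast hn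
    have hlog : 0 ≤ Real.logb 2 (Fintype.card V) := Real.logb_nonneg (by norm_num) (by linarith)
    rcases hG with ⟨Y, hY, hd⟩ | ⟨D, hD, hdeg, hd⟩
    · refine h2 V G Y.toFinset hn ?_ ?_
      · rw [← Set.ncard_eq_toFinset_card' Y]
        refine le_trans ?_ hY
        have hc : (0 : ℝ) ≤ Y.ncard := Nat.cast_nonneg _
        refine mul_le_mul_of_nonneg_right (mul_le_mul_of_nonneg_right ?_ hlog) hc
        linarith
      · intro u v hu hv huv
        rw [Set.mem_toFinset] at hu hv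
        have h4 := hd u v hu hv huv
        rw [← ncard_dset] at h4
        refine le_trans (mul_le_mul_of_nonneg_right ?_ hlog) h4
        linarith
    · have hDR : (2 : ℝ) ≤ D := by exact_mod_cast hD
      have hlogD : 0 ≤ Real.logb 2 D := Real.logb_nonneg (by norm_num) (by linarith)
      refine h3 V G D hn hD hdeg fun u v huv => ?_
      have h4 := hd u v huv
      rw [← ncard_dset] at h4
      refine le_trans (mul_le_mul_of_nonneg_right ?_ hlogD) h4
      linarith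

end Pool.Agent.NRU
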