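import Pool.Agent.NRP.All
import Pool.Agent.NRR.Targets

/-!
# NRU: graphs whose differences are at least `C log D`, `D` the maximum degree (MP_552896_co)

One file per target: `Pool/Agent/NRU/P_X.lean`, theorem `Pool.Agent.NRU.p_X (other targets) : T_X`.
All targets of NRC, NRP, NRR may be used as hypotheses or, if the file `P_X.lean` is landed,
directly
(`NRP.a_LVS`, `NRP.a_LVT`, `NRP.a_ECO`, `NRP.p_CLO`, `NRP.p_NUM`, `NRP.p_XBD` from NRP/All.lean).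
`n = Fintype.card V`, `nb G v` = the neighbours of `v`, `log` is `Real.logb 2`. Models:
NRR/P_LVK.lean,
NRP/P_STP.lean, NRP/P_LV1.lean, NRP/P_MAI.lean, NRP/P_ITR.lean.
-/

set_option autoImplicit false

open Finset Classical

namespace Pool.Agent.NRU

open Pool.Agent Pool.Agent.Lib.Recon Pool.Agent.RNB Pool.Agent.NRC Pool.Agent.NRP
  Pool.Agent.NRR

/-- INN: the first level with `A = ∅`. PROOF. `cl G ∅ y = univ`. `side z y = cl G {z} y` is the set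
of
the `x ≠ z` with `G.Adj z x ↔ G.Adj z y`: if `G.Adj z y` it is `nb G z`, at most `D` elements; if
not
(and `y ≠ z`) it has `n - 1 - |nb G z| > 2 D` elements. So `EE G D ∅ = ∅` (one of the two sides is
the
one of the neighbours), `IN G (2 D) ∅ y = {z ≠ y | |side z y| ≤ 2 D} = nb G y`, `LA = univ` as
`64 D < n`, and `ZZ G ∅ y` (the `z ≠ y` with `2 |side z y| ≤ n`) is contained in `nb G y`, because
`2 (n - 1 - D) > n`. -/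
def T_INN : Prop := ∀ (V : Type) [Fintype V] (G : SimpleGraph V) (D : ℕ),
  (∀ v, (nb G v).card ≤ D) → 1 ≤ D → 64 * D < Fintype.card V →
  EE G D ∅ = ∅ ∧ (∀ y, IN G (2 * D) ∅ y = nb G y) ∧ LA G D (64 * D) ∅ = univ ∧
    ∀ y, (ZZ G ∅ y).card ≤ D

/-- LVC (from NRP.T_LVS): all closed sets are cheap. PROOF. (Edit of NRR/P_LVK.lean.)
`P = PL G g q A T0`, `I = In`. Each member `W` of `SCP I P M` is nonempty, closed and in `P`, so it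
contains some `y` with `1 + log (kc G T0 y) ≤ ρ`; `Q2` = these elements, `T1 = T0 ∪ Q2`: add them
one
by one (`Co.step` with `C = T0`, `k = kc G T0 y ≥ 1`), cost at most `ρ |SCP|`. Then as in LVK: LVS
for
`T1`, its first alternative is impossible (`LVK_.Sc_mem`). -/
def T_LVC : Prop := ∀ (V : Type) [Fintype V] (G : SimpleGraph V) (g q h M d k : ℕ)
  (A T0 : Finset V) (ms : V → ℕ) (c ρ : ℝ), 1 ≤ Fintype.card V → d ≤ Fintype.card V →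
  (∀ u v, u ≠ v → KK ≤ (dset G u v).card) → 0 ≤ ρ →
  Lv G g q h A T0 → Mk (kc G) T0 ms → (∀ y, ms y = 0 ∨ KH ≤ ms y) →
  (∀ y ∈ PL G g q A T0, ms y = 0 ∨ q < ms y) → Co G T0 (c + Ph ms) →
  (∀ Q : Finset V, Q ⊆ PL G g q A T0 → Q.Nonempty → (∀ y ∈ Q, IN G (2 * g) A y ⊆ Q) →
    ∃ y ∈ Q, 1 + Real.logb 2 (kc G T0 y) ≤ ρ) →
  ∃ (T' : Finset V) (ms' : V → ℕ) (s x e : ℕ), T0 ⊆ T' ∧ Nr G d T' ∧
    M * s ≤ Fintype.card V ∧ q * e ≤ Fintype.card V ∧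
    (x : ℝ) ≤ ((Fintype.card V : ℝ) * (1 + q + h * (2 * g))) *
      (1 - (d : ℝ) / (2 * Fintype.card V)) ^ k ∧
    Mk (kc G) T' ms' ∧ (∀ y, ms' y = 0 ∨ KH ≤ ms' y) ∧
    Co G T' (c + ρ * (SCP (IN G (2 * g) A) (PL G g q A T0) M).card + ρ * s +
      4 * (1 + Real.logb 2 q) * (k + x) + 6 * KH * e + Ph ms')

/-- L1C (from INN, NRP.T_LVS, NRP.T_XBD): the first level. PROOF. `A = T0 = ∅`, `g = h = D`,
`q = 64 D`, `m = Nat.log 2 (64 D) + 1`, `ms = 0`, `c = 0`, `ρ = 1 + log n`, `M = n - 1`,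
`d = 16 m^3`, `k = n / m^2`. `Lv` by INN (`4 D + D + 2 ≤ 64 D`). LVS (`1 ≤ kc ≤ n`). First
alternative:
a nonempty set `Q`, `|Q| ≤ n - 1`, with `nb G y ⊆ Q` for `y ∈ Q`: impossible as `G` is connected.
Second one: `(n - 1) s ≤ n`, so `s ≤ 2`, `ρ s ≤ 2 (1 + log n)`; `1 + log q ≤ m + 1 ≤ 2 m`
(`64 D < 2^m`), `k ≤ n / m^2`, and `x ≤ n / m^2` by XBD with `Q = 1 + 64 D + 2 D^2 ≤ (64 D)^2 ≤
2^(2 m)`: together `4 (1 + log q) (k + x) ≤ 16 n / m`; `6 KH e ≤ 6 KH n / (64 D)`. `Cx`: `lv`, `bad`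
(INN), `sub`, `cls` (the `Cz` of LVS). -/
def T_L1C : Prop := ∀ (V : Type) [Fintype V] (G : SimpleGraph V) (D m : ℕ), G.Connected →
  (∀ v, (nb G v).card ≤ D) → 1 ≤ D → 64 * D < Fintype.card V → 3 ≤ Fintype.card V →
  m = Nat.log 2 (64 * D) + 1 → 16 * m ^ 3 ≤ Fintype.card V →
  (∀ u v, u ≠ v → KK ≤ (dset G u v).card) →
  ∃ (T1 : Finset V) (ms : V → ℕ), Cx G ∅ ∅ T1 D (64 * D) D ∧ Nr G (16 * m ^ 3) T1 ∧
    Mk (kc G) T1 ms ∧ (∀ y, ms y = 0 ∨ KH ≤ ms y) ∧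
    Co G T1 (2 * (1 + Real.logb 2 (Fintype.card V)) + 16 * Fintype.card V / m +
      6 * KH * (Fintype.card V / (64 * D)) + Ph ms)

/-- L2C (from LVC, NRR.T_NCP, NRP.T_SYS or NRC.T_SYM, NRC.T_ELO, NRP.T_LVT, NRP.T_ECO, NRP.T_CLO,
NRP.T_NUM, NRP.T_XBD): the second level. PROOF. (Edit of NRP/P_STP.lean without the enrichment.)
`g = d^2`, `q = d^4`, `h = 2 d`, `T0 = T1 ∪ EE G g T1`, `P = PL G g q T1 T0`, `I = IN G (2 g) T1`,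
`m = lam d`, `qq = 64 D`, `ρ = 1 + log qq`. `Lv` by LVT, ECO gives `Co G T0 (.. + 2 m n / d + Ph
ms)`,
`Mk T0`, the marks on `P` are `0` or more than `q`, all as in STP. Every nonempty closed `Q ⊆ P`
contains `y` with `kc G T0 y ≤ qq`: otherwise CLO (`A = T01 = ∅`, `T = T1`) and `Cx.cls`, as in STP.
LVC with `M = (K0 - 1) / 2`, `nx d` for `d`, `k = n / m^2`: a set `T'`, `Nr G (nx d) T'`, so
`Dst G T'`: two mates outside `T'` would have `K0 ≤ |dset| < nx d ≤ K0`. COSTS: `s ≤ n / M ≤ 4 n /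
K0`
(`K0 ≥ 4`: `4 M ≥ K0`); `d^4 |SCP| ≤ n`: NCP (symmetry of `I` on `P`: SYS) gives a set `D'` with
`|D'| = |SCP|` and for `v ∈ D'` a closed set `W v ⊆ P` with `v ∈ W v`, `|W v| ≤ M`, so `v ∈ LA` and
`2 |I v| ≤ 2 M < K0`, and ELO (`d = K0`, base `T1`) bounds the number of such `v`. The other costs
as in STP: `2 m n / d + 8 n / m + 6 KH e ≤ 10 n / m`. -/
def T_L2C : Prop := ∀ (V : Type) [Fintype V] (G : SimpleGraph V) (D d K0 : ℕ)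
  (T1 : Finset V) (ms : V → ℕ) (c : ℝ), Cx G ∅ ∅ T1 D (64 * D) D → KK ≤ d →
  d ≤ Fintype.card V → 2 * D + d ^ 2 + 2 ≤ 64 * D → KK ≤ K0 → nx d ≤ K0 →
  (∀ u v, u ≠ v → K0 ≤ (dset G u v).card) → Nr G d T1 → Mk (kc G) T1 ms →
  (∀ y, ms y = 0 ∨ KH ≤ ms y) → Co G T1 (c + Ph ms) →
  ∃ (T' : Finset V) (ms' : V → ℕ), Dst G T' ∧ (∀ y, ms' y = 0 ∨ KH ≤ ms' y) ∧
    Co G T' (c + 18 * Fintype.card V / lam d + (1 + Real.logb 2 ((64 * D : ℕ) : ℝ)) *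
      (Fintype.card V / (d : ℝ) ^ 4 + 4 * Fintype.card V / K0) + Ph ms')

/-- NUU: numbers. PROOF. `m = Nat.log 2 (64 D) + 1 → ∞`, `m ≤ Nat.log 2 D + 7`, `2^m ≤ 128 D`. For
`D`
large `16 m^3 ≥ KK`, and `(16 m^3)^2 ≤ D`, `nx (16 m^3) = 16 (4 Nat.log 2 (16 m^3) + 5)^3 ≤
16 (4 (4 + 3 (Nat.log 2 m + 1)) + 5)^3 ≤ m - 7 ≤ Nat.log 2 D`, `64 D + 1 ≤ D^4`,
`16 m^3 ≤ D`. -/
def T_NUU : Prop := ∃ D0 : ℕ, ∀ D : ℕ, D0 ≤ D →
  KK ≤ 16 * (Nat.log 2 (64 * D) + 1) ^ 3 ∧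
  2 * D + (16 * (Nat.log 2 (64 * D) + 1) ^ 3) ^ 2 + 2 ≤ 64 * D ∧
  16 * (Nat.log 2 (64 * D) + 1) ^ 3 ≤ D ∧
  nx (16 * (Nat.log 2 (64 * D) + 1) ^ 3) ≤ Nat.log 2 D ∧
  20000 ≤ Nat.log 2 (64 * D) + 1 ∧ 6000 * KH ≤ 64 * D ∧ 64 * D < D ^ 4 ∧ 1 ≤ Nat.log 2 D

/-- UFN (from L1C, L2C, NUU, NRP.T_DON, NRP.T_PW, NRP.T_NLV): the main case. PROOF. Let `D0` be as
in
NUU, `n0` as in DON, `C ≥ max (64000, KK, D0, n0)`. `m = Nat.log 2 (64 D) + 1`, `d = 16 m^3`,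
`K0 = C * Nat.log 2 D ≥ KK, nx d`. L1C and L2C give `Dst G T'` and `Co G T' c'` with
`c' = 2 (1 + log n) + 16 n / m + 6 KH n / (64 D) + 18 n / lam d + (1 + log (64 D)) (n / d^4 +
4 n / K0) + Ph ms'`, `Ph ms' ≤ 6 n pw KH ≤ n / 1000` (PW, NLV). `2 (1 + log n) ≤ n / 1000` (`n`
large),
`16 / m ≤ 1 / 1000`, `6 KH / (64 D) ≤ 1 / 1000`, `18 / lam d ≤ 18 / 40005` (NUM), `1 + log (64 D) ≤
2 m`, `2 m / d^4 ≤ 1 / 1000`, `2 m * 4 / K0 ≤ 64 / C ≤ 1 / 1000` (`m ≤ Nat.log 2 D + 7 ≤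
8 Nat.log 2 D`). So `100 c' ≤ n`, and DON gives the isomorphism, a contradiction. -/
def T_UFN : Prop := ∃ C : ℕ, 1 ≤ C ∧ ∀ (V : Type) [Fintype V] (G H : SimpleGraph V) (D : ℕ),
  G.Connected → (∀ v, CardIso G H v v) → (∀ v, (nb G v).card ≤ D) → C ≤ D →
  D ^ 4 ≤ Fintype.card V → (∀ u v, u ≠ v → C * Nat.log 2 D ≤ (dset G u v).card) →
  ∃ α : V ≃ V, ∀ x y, G.Adj x y ↔ H.Adj (α x) (α y)

end Pool.Agent.NRU
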